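import Pool.Agent.X308.S.DegDefs
import Pool.Agent.X308.S.InProdDefs
import Mathlib.Data.Finsupp.Basic

/-!
# Polynomial identities for correspondences on surfaces: definitions
-/

set_option autoImplicit false

universe u v w

namespace Pool.Agent.X308.I

open Pool.Agent.H914 Pool.Agent.W492.BB Pool.Agent.X308.S

variable {k : Type u} [Field k] {𝒱 : VarClass k} (C : TheoryData.{u, v, 0} 𝒱 ℚ)

/-- The action of the monomial `w` in the self-correspondences `x 0, x 1, …` of `U` on a cycle
(the first letter of `w` acts first). -/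
noncomputable def wordAct {U : 𝒱.Obj} (x : ℕ → C.A (U.prod U)) : List ℕ → C.A U → C.A U
  | [], α => α
  | i :: w, α => wordAct x w (C.act (x i) α)

/-- The action of the noncommutative polynomial `f` (with rational coefficients, `f w` is the
coefficient of the monomial `w`) in the self-correspondences `x 0, x 1, …` of `U`. -/
noncomputable def polyAct {U : 𝒱.Obj} (x : ℕ → C.A (U.prod U)) (f : List ℕ →₀ ℚ) (α : C.A U) :
    C.A U :=
  f.sum fun w c => c • wordAct C x w α

variable {C} {K : Type w} [Field K] (H : WeilTheoryData.{u, v, w} C K)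

/-- For all surfaces `U`, the actions on the Albanese kernel of `U` of the self-correspondences in
`CH^2(U × U)` which are homologically equivalent to degenerate ones satisfy the polynomial identity
`f = 0`. -/
def SatisfyIdentity (f : List ℕ →₀ ℚ) : Prop :=
  ∀ (U : 𝒱.Obj) (x : ℕ → C.A (U.prod U)) (α : C.A U), U.dim = 2 →
    (∀ i, C.Deg 2 (x i) ∧ IsHomDegenerate H (x i)) → InAlbKer C α → polyAct C x f α = 0

/-- For all surfaces `U` and all self-correspondences in `CH^2(U × U)` which are homologically
equivalent to degenerate ones the `d`-th power acts as zero on the Albanese kernel of `U`. -/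
def PowersVanish (d : ℕ) : Prop :=
  ∀ (U : 𝒱.Obj) (Γ : C.A (U.prod U)) (α : C.A U), U.dim = 2 → C.Deg 2 Γ → IsHomDegenerate H Γ →
    InAlbKer C α → (C.act Γ)^[d] α = 0

/-- The composition of any `d` correspondences `Γ 0 : S 0 → S 1`, `Γ 1 : S 1 → S 2`, … of degree
zero between surfaces which are homologically equivalent to degenerate ones acts as zero on the
Albanese kernel of `S 0`. -/
def CompositionsVanish (d : ℕ) : Prop :=
  ∀ (S : ℕ → 𝒱.Obj) (Γ : ∀ i, C.A ((S i).prod (S (i + 1)))) (α : ∀ i, C.A (S i)),
    (∀ i, (S i).dim = 2 ∧ C.Deg 2 (Γ i) ∧ IsHomDegenerate H (Γ i)) → InAlbKer C (α 0) →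
      (∀ i, α (i + 1) = C.act (Γ i) (α i)) → α d = 0

end Pool.Agent.X308.I
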