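import Pool.Agent.X308.I.Defs
import Pool.Agent.X308.S.Sq
import Pool.Agent.X308.P.Corr

/-!
# Polynomial identities for correspondences on surfaces
-/

set_option autoImplicit false

universe u v w

namespace Pool.Agent.X308.I

open CategoryTheory Pool.Agent.H914 Pool.Agent.H914.VarClass Pool.Agent.H914.VarClass.Obj
  Pool.Agent.W492.BB Pool.Agent.W550.Corr Pool.Agent.TH133 Pool.Agent.Y148.BB Pool.Agent.X308.S
  Pool.Agent.X308.P

set_option linter.unusedSectionVars false

variable {k : Type u} [Field k] {𝒱 : VarClass k} {C : TheoryData.{u, v, 0} 𝒱 ℚ} {K : Type w}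
  [Field K] [hC : IsChowProj C]
  {H : WeilTheoryData.{u, v, w} C K} [hH : IsWeilProj H] {S T U X Y Z W : 𝒱.Obj}

lemma smul_cancel {M : Type*} [AddCommGroup M] [Module ℚ M] {q : ℚ} (hq : q ≠ 0) {x : M}
    (h : q • x = 0) : x = 0 := by
  rw [← one_smul ℚ x, ← inv_mul_cancel₀ hq, mul_smul, h, smul_zero]

section chow

include hC

lemma wordAct_zero (x : ℕ → C.A (U.prod U)) (w : List ℕ) : wordAct C x w 0 = 0 := by
  induction w with
  | nil => rfl
  | cons i w ih => rw [wordAct, TheoryData.act_map_zero, ih]

lemma wordAct_smul (x : ℕ → C.A (U.prod U)) (w : List ℕ) (q : ℚ) (α : C.A U) :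
    wordAct C x w (q • α) = q • wordAct C x w α := by
  induction w generalizing α with
  | nil => rfl
  | cons i w ih => rw [wordAct, act_map_smul, ih, wordAct]

lemma wordAct_replicate (x : ℕ → C.A (U.prod U)) (d : ℕ) (α : C.A U) :
    wordAct C x (List.replicate d 0) α = (C.act (x 0))^[d] α := by
  induction d generalizing α with
  | zero => rfl
  | succ d ih => rw [List.replicate_succ, wordAct, ih, Function.iterate_succ_apply]

lemma degenerate_sum {ι : Type*} (s : Finset ι) {f : ι → C.A (S.prod T)}
    (h : ∀ i ∈ s, IsDegenerate C (f i)) : IsDegenerate C (∑ i ∈ s, f i) := by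
  classical
  induction s using Finset.induction_on with
  | empty => rw [Finset.sum_empty]; exact IsDegenerate.zero
  | insert a s ha ih =>
    rw [Finset.sum_insert ha]
    exact IsDegenerate.add _ _ (h a (Finset.mem_insert_self _ _))
      (ih fun i hi => h i (Finset.mem_insert_of_mem hi))

end chow

section weil

include hC hH

lemma isHomDegenerate_sum {ι : Type*} (s : Finset ι) {f : ι → C.A (S.prod T)}
    (h : ∀ i ∈ s, IsHomDegenerate H (f i)) : IsHomDegenerate H (∑ i ∈ s, f i) := by
  classical
  choose! W hW hW' using h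
  refine ⟨∑ i ∈ s, W i, degenerate_sum s hW, ?_⟩
  rw [map_sum, map_sum]
  exact Finset.sum_congr rfl hW'

lemma isHomDegenerate_sandwich (hS : S.dim = 2) (hT : T.dim = 2) {a : C.A (U.prod S)}
    {Γ : C.A (S.prod T)} {b : C.A (T.prod W)} (ha : a ∈ C.gr (U.prod S) 2)
    (hb : b ∈ C.gr (T.prod W) 2) (h : IsHomDegenerate H Γ) :
    IsHomDegenerate H (C.comp a (C.comp Γ b)) := by
  obtain ⟨W, hW, h1⟩ := h
  refine ⟨C.comp a (C.comp W b), degenerate_comp_left hS ha (degenerate_comp_right hT hb hW), ?_⟩
  rw [cl_comp, cl_comp, cl_comp, cl_comp, h1]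

lemma hasDegree_albKer (hS : SurfaceProperties H) (hd : S.dim = 2) {z : C.A S}
    (hz : InAlbKer C z) : HasDegree C z 0 :=
  hasDegree_zero_of_cl (H := H) hz.deg (cl_albKer hS hd hz)

/-- Correspondences `a × T + D × E + S × b` act as zero on the Albanese kernel. -/
lemma act_class (hS : SurfaceProperties H) (hd : S.dim = 2) {a D : C.A S} {b E : C.A T}
    (ha : C.Deg 2 a) (hD : C.Deg 1 D) {z : C.A S} (hz : InAlbKer C z) :
    C.act (C.ext a (1 : C.A T) + C.ext D E + C.ext (1 : C.A S) b) z = 0 := by
  have hz2 : z ∈ C.gr S 2 := by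
    have := hz.deg
    rwa [hd] at this
  rw [C.act_add, C.act_add, act_ext_zero_of_lt (C.mul_mem ha hz2) (by rw [hd]; norm_num),
    act_ext_zero_of_lt (C.mul_mem hD hz2) (by rw [hd]; norm_num),
    act_ext' (q := 0) (by rw [one_mul]; exact hasDegree_albKer hS hd hz), zero_smul, add_zero,
    add_zero]

/-- A surface which dominates the surfaces `S i`, `i ≤ n`, with orthogonal maps on the Albanese
kernels. -/
lemma exists_tower (hS : SurfaceProperties H) (hU : HasSurfacesInProducts C) (S : ℕ → 𝒱.Obj)
    (hd : ∀ i, (S i).dim = 2) (n : ℕ) :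
    ∃ (U : 𝒱.Obj) (a : ∀ i, C.A ((S i).prod U)) (b : ∀ i, C.A (U.prod (S i))) (m : ℕ → ℚ),
      U.dim = 2 ∧ (∀ i, C.Deg 2 (a i) ∧ C.Deg 2 (b i)) ∧ (∀ i, m i ≠ 0) ∧
      (∀ i ≤ n, ∀ z, InAlbKer C z → C.act (b i) (C.act (a i) z) = m i • z) ∧
      ∀ i ≤ n, ∀ j ≤ n, i ≠ j → ∀ z, InAlbKer C z → C.act (b j) (C.act (a i) z) = 0 := by
  induction n with
  | zero =>
    have hdg : dg C (S 0) ∈ C.gr ((S 0).prod (S 0)) 2 := by
      have := dg_mem C (S 0)
      rw [hd] at this
      exact_mod_cast this
    refine ⟨S 0, Function.update (fun _ => 0) 0 (dg C (S 0)),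
      Function.update (fun _ => 0) 0 (dg C (S 0)), fun _ => 1, hd 0, fun i => ?_,
      fun _ => one_ne_zero, ?_, ?_⟩
    · rcases Nat.eq_zero_or_pos i with h | h
      · subst h
        rw [Function.update_self, Function.update_self]
        exact ⟨hdg, hdg⟩
      · rw [Function.update_of_ne (by omega), Function.update_of_ne (by omega)]
        exact ⟨Submodule.zero_mem _, Submodule.zero_mem _⟩
    · intro i hi z _
      have h : i = 0 := by omega
      subst h
      rw [Function.update_self, Function.update_self, act_dg, act_dg, one_smul]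
    · intro i hi j hj hij
      omega
  | succ n ih =>
    obtain ⟨U, a, b, m, hdU, hab, hm, h1, h2⟩ := ih
    obtain ⟨V, p, q, s, t, c, D, e, E, hdV, hs, ht, hp, hq, hc, he, hD, hE, hM⟩ :=
      hU U (S (n + 1)) hdU (hd _)
    have hp' : C.push p 1 = s • (1 : C.A U) := hp
    have hq' : C.push q 1 = t • (1 : C.A (S (n + 1))) := hq
    have hM' : C.comp (C.cograph p) (C.graph q) = C.ext c 1 + C.ext D E + C.ext 1 e := by
      rw [X308.A.comp_cograph_graph]
      exact hM
    have hM2 : C.comp (C.cograph q) (C.graph p) = C.ext e 1 + C.ext E D + C.ext 1 c := by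
      have h3 : C.comp (C.cograph q) (C.graph p) = tp C (C.comp (C.cograph p) (C.graph q)) := by
        rw [tp_comp', X308.A.tp_graph, X308.A.tp_cograph]
      rw [h3, hM', tp_add, tp_add, tp_ext, tp_ext, tp_ext]
      abel
    have hgp : C.graph p ∈ C.gr (V.prod U) 2 := by
      have := graph_mem' (C := C) p
      rw [hdU] at this
      exact_mod_cast this
    have hgq : C.graph q ∈ C.gr (V.prod (S (n + 1))) 2 := by
      have := graph_mem' (C := C) q
      rw [hd] at this
      exact_mod_cast this
    have hcp : C.cograph p ∈ C.gr (U.prod V) 2 := by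
      have := cograph_mem (C := C) p
      rw [hdU] at this
      exact_mod_cast this
    have hcq : C.cograph q ∈ C.gr ((S (n + 1)).prod V) 2 := by
      have := cograph_mem (C := C) q
      rw [hd] at this
      exact_mod_cast this
    have hpp : ∀ z : C.A U, C.push p (C.pull p z) = s • z := by
      intro z
      have h3 := C.proj_left p 1 z
      rw [mul_one, hp', mul_smul_comm, mul_one] at h3
      exact h3
    have hqq : ∀ z : C.A (S (n + 1)), C.push q (C.pull q z) = t • z := by
      intro z
      have h3 := C.proj_left q 1 z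
      rw [mul_one, hq', mul_smul_comm, mul_one] at h3
      exact h3
    have hqp : ∀ z : C.A U, InAlbKer C z → C.push q (C.pull p z) = 0 := by
      intro z hz
      rw [← C.act_cograph p z, ← C.act_graph q, ← C.act_comp, hM']
      exact act_class hS hdU hc hD hz
    have hpq : ∀ z : C.A (S (n + 1)), InAlbKer C z → C.push p (C.pull q z) = 0 := by
      intro z hz
      rw [← C.act_cograph q z, ← C.act_graph p, ← C.act_comp, hM2]
      exact act_class hS (hd _) he hE hz
    refine ⟨V, Function.update (fun i => C.comp (a i) (C.cograph p)) (n + 1) (C.cograph q),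
      Function.update (fun i => C.comp (C.graph p) (b i)) (n + 1) (C.graph q),
      Function.update (fun i => s * m i) (n + 1) t, hdV, fun i => ?_, fun i => ?_, ?_, ?_⟩
    · by_cases h : i = n + 1
      · subst h
        rw [Function.update_self, Function.update_self]
        exact ⟨hcq, hgq⟩
      · rw [Function.update_of_ne h, Function.update_of_ne h]
        exact ⟨comp_deg (hab i).1 hcp (by rw [hdU]; norm_num),
          comp_deg hgp (hab i).2 (by rw [hdU]; norm_num)⟩
    · by_cases h : i = n + 1
      · subst h
        rw [Function.update_self]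
        exact ht
      · rw [Function.update_of_ne h]
        exact mul_ne_zero hs (hm i)
    · intro i hi z hz
      by_cases h : i = n + 1
      · subst h
        rw [Function.update_self, Function.update_self, Function.update_self, C.act_cograph,
          C.act_graph, hqq]
      · rw [Function.update_of_ne h, Function.update_of_ne h, Function.update_of_ne h, C.act_comp,
          C.act_comp, C.act_cograph, C.act_graph, hpp, act_map_smul, h1 i (by omega) z hz,
          smul_smul]
    · intro i hi j hj hij z hz
      by_cases h : i = n + 1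
      · subst h
        rw [Function.update_self, Function.update_of_ne (Ne.symm hij), C.act_comp, C.act_cograph,
          C.act_graph, hpq z hz, TheoryData.act_map_zero]
      · by_cases h' : j = n + 1
        · subst h'
          rw [Function.update_self, Function.update_of_ne h, C.act_comp, C.act_cograph,
            C.act_graph]
          exact hqp _ (albKer_act (H := H) (hd i) hdU (hab i).1 hz)
        · rw [Function.update_of_ne h, Function.update_of_ne h', C.act_comp, C.act_comp,
            C.act_cograph, C.act_graph, hpp, act_map_smul, h2 i (by omega) j (by omega) hij z hz,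
            smul_zero]

/-- The main step. -/
theorem compositions_of_identity (hS : SurfaceProperties H) (hU : HasSurfacesInProducts C)
    {f : List ℕ →₀ ℚ} (hf : SatisfyIdentity H f) {w : List ℕ} (hw : f w ≠ 0) :
    CompositionsVanish H w.length := by
  intro S Γ α hSΓ hα0 hα
  set d := w.length with hdw
  obtain ⟨U, a, b, m, hdU, hab, hm, h1, h2⟩ := exists_tower hS hU S (fun i => (hSΓ i).1) d
  have hαT : ∀ i, InAlbKer C (α i) := by
    intro i
    induction i with
    | zero => exact hα0
    | succ i ih =>
      rw [hα i]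
      exact albKer_act (H := H) (hSΓ i).1 (hSΓ (i + 1)).1 (hSΓ i).2.1 ih
  set Δ : ℕ → C.A (U.prod U) := fun i => C.comp (b i) (C.comp (Γ i) (a (i + 1))) with hΔ
  set x : ℕ → C.A (U.prod U) := fun j =>
    ∑ i ∈ (Finset.range d).filter (fun i => w[i]? = some j), Δ i with hx
  have hxU : ∀ j, C.Deg 2 (x j) ∧ IsHomDegenerate H (x j) := by
    intro j
    constructor
    · refine Submodule.sum_mem _ fun i _ => ?_
      exact comp_deg (hab i).2 (comp_deg (j := 2) (hSΓ i).2.1 (hab (i + 1)).1
        (by rw [(hSΓ (i + 1)).1]; norm_num)) (by rw [(hSΓ i).1]; norm_num)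
    · exact isHomDegenerate_sum _ fun i _ =>
        isHomDegenerate_sandwich (hSΓ i).1 (hSΓ (i + 1)).1 (hab i).2 (hab (i + 1)).1 (hSΓ i).2.2
  -- the action of the letters
  have hact : ∀ j k, k ≤ d → C.act (x j) (C.act (a k) (α k)) =
      if w[k]? = some j then m k • C.act (a (k + 1)) (α (k + 1)) else 0 := by
    intro j k hk
    have e1 : ∀ i ∈ (Finset.range d).filter (fun i => w[i]? = some j),
        C.act (Δ i) (C.act (a k) (α k)) =
          if i = k then m k • C.act (a (k + 1)) (α (k + 1)) else 0 := by
      intro i hi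
      rw [Finset.mem_filter, Finset.mem_range] at hi
      rw [hΔ]
      simp only
      rw [C.act_comp, C.act_comp]
      split_ifs with h
      · subst h
        rw [h1 i hk _ (hαT i), act_map_smul, act_map_smul, ← hα i]
      · rw [h2 k hk i (by omega) (Ne.symm h) _ (hαT k), TheoryData.act_map_zero,
          TheoryData.act_map_zero]
    rw [hx]
    simp only
    rw [act_sum, Finset.sum_congr rfl e1]
    by_cases h : w[k]? = some j
    · rw [if_pos h, Finset.sum_eq_single k]
      · rw [if_pos rfl]
      · intro i _ hi
        rw [if_neg hi]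
      · intro hk'
        exfalso
        apply hk'
        rw [Finset.mem_filter, Finset.mem_range]
        refine ⟨?_, h⟩
        have := List.getElem?_eq_some_iff.1 h
        exact this.1
    · rw [if_neg h]
      refine Finset.sum_eq_zero fun i hi => ?_
      rw [Finset.mem_filter] at hi
      rw [if_neg]
      rintro rfl
      exact h hi.2
  -- the action of the words
  have hword : ∀ (w' : List ℕ) (k : ℕ), k ≤ d →
      C.act (b d) (wordAct C x w' (C.act (a k) (α k))) =
        if w' = w.drop k then (∏ i ∈ Finset.Ico k (d + 1), m i) • α d else 0 := by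
    intro w'
    induction w' with
    | nil =>
      intro k hk
      rw [wordAct]
      rcases eq_or_lt_of_le hk with h | h
      · subst h
        rw [h1 d le_rfl _ (hαT d), if_pos (by simp [hdw]), Nat.Ico_succ_singleton,
          Finset.prod_singleton]
      · rw [h2 k hk d le_rfl (by omega) _ (hαT k), if_neg]
        intro h3
        have h4 : (w.drop k).length = 0 := by rw [← h3]; rfl
        rw [List.length_drop] at h4
        omega
    | cons j w' ih =>
      intro k hk
      rw [wordAct, hact j k hk]
      by_cases h : w[k]? = some j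
      · have hkd : k < d := (List.getElem?_eq_some_iff.1 h).1
        have h5 : w.drop k = j :: w.drop (k + 1) := by
          rw [List.drop_eq_getElem_cons hkd, (List.getElem?_eq_some_iff.1 h).2]
        rw [if_pos h, wordAct_smul, act_map_smul, ih (k + 1) (by omega), h5]
        by_cases h6 : w' = w.drop (k + 1)
        · rw [if_pos h6, if_pos (by rw [h6]), smul_smul,
            Finset.prod_eq_prod_Ico_succ_bot (by omega : k < d + 1)]
        · rw [if_neg h6, if_neg (by simpa using h6), smul_zero]
      · rw [if_neg h, wordAct_zero, TheoryData.act_map_zero, if_neg]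
        intro h3
        apply h
        have h4 : (j :: w')[0]? = (w.drop k)[0]? := by rw [h3]
        rw [List.getElem?_drop, add_zero] at h4
        rw [← h4]
        rfl
  have h3 := hf U x (C.act (a 0) (α 0)) hdU hxU
    (albKer_act (H := H) (hSΓ 0).1 hdU (hab 0).1 (hαT 0))
  have h4 : C.act (b d) (polyAct C x f (C.act (a 0) (α 0))) =
      f w • (∏ i ∈ Finset.Ico 0 (d + 1), m i) • α d := by
    rw [polyAct, Finsupp.sum, act_map_sum]
    have e1 : ∀ w' ∈ f.support, C.act (b d) (f w' • wordAct C x w' (C.act (a 0) (α 0))) =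
        if w' = w then f w • (∏ i ∈ Finset.Ico 0 (d + 1), m i) • α d else 0 := by
      intro w' _
      rw [act_map_smul, hword w' 0 (Nat.zero_le _), List.drop_zero]
      split_ifs with h
      · rw [h]
      · rw [smul_zero]
    rw [Finset.sum_congr rfl e1, Finset.sum_ite_eq', if_pos (Finsupp.mem_support_iff.2 hw)]
  rw [h3, TheoryData.act_map_zero] at h4
  exact smul_cancel (Finset.prod_ne_zero_iff.2 fun i _ => hm i) (smul_cancel hw h4.symm)

theorem powers_of_compositions {d : ℕ} (h : CompositionsVanish H d) : PowersVanish H d := by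
  intro U Γ α hd hΓ hh hα
  exact h (fun _ => U) (fun _ => Γ) (fun i => (C.act Γ)^[i] α) (fun _ => ⟨hd, hΓ, hh⟩) hα
    (fun i => Function.iterate_succ_apply' _ _ _)

theorem identity_of_powers {d : ℕ} (h : PowersVanish H d) :
    ∃ (f : List ℕ →₀ ℚ) (w : List ℕ), w.length = d ∧ f w ≠ 0 ∧ SatisfyIdentity H f := by
  classical
  refine ⟨Finsupp.single (List.replicate d 0) 1, List.replicate d 0, List.length_replicate, ?_,
    ?_⟩
  · rw [Finsupp.single_eq_same]
    exact one_ne_zero
  · intro U x α hd hx hα
    rw [polyAct, Finsupp.sum_single_index (by rw [zero_smul]), one_smul, wordAct_replicate]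
    exact h U (x 0) α hd (hx 0).1 (hx 0).2 hα

/-- **Main theorem.** -/
theorem identities (hS : SurfaceProperties H) (hU : HasSurfacesInProducts C) (d : ℕ) :
    List.TFAE [CompositionsVanish H d, PowersVanish H d,
      ∃ (f : List ℕ →₀ ℚ) (w : List ℕ), w.length = d ∧ f w ≠ 0 ∧ SatisfyIdentity H f] := by
  tfae_have 1 → 2 := powers_of_compositions
  tfae_have 2 → 3 := identity_of_powers
  tfae_have 3 → 1 := by
    rintro ⟨f, w, rfl, hw, hf⟩
    exact compositions_of_identity hS hU hf hw
  tfae_finish

end weil

end Pool.Agent.X308.I
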